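import Pool.Agent.T9h45.LD.Spec

/-!
# Project LD (MP_b8729f_co), piece T4b: the strong colouring with offsets for atoms
-/

set_option autoImplicit false

namespace Pool.Agent.T9h43.LD

open Finset Classical Pool.T9h45.HY Pool.T9h45.CP Pool.T9h45.LD

/-- the atoms `{v, σ v}` -/
def st {V : Type} (σ : V → V) (hσ : ∀ v, σ (σ v) = v) : Setoid V where
  r u v := u = v ∨ u = σ v
  iseqv := {
    refl := fun v => Or.inl rfl
    symm := by
      intro u v h
      rcases h with h | h
      · exact Or.inl h.symm
      · exact Or.inr (by rw [h, hσ])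
    trans := by
      intro u v w h h'
      rcases h with h | h <;> rcases h' with h' | h'
      · exact Or.inl (h.trans h')
      · exact Or.inr (h.trans h')
      · exact Or.inr (by rw [h, h'])
      · exact Or.inl (by rw [h, h', hσ]) }

theorem cn_eq {W : Type} [Fintype W] (P : W → Prop) [DecidablePred P] :
    cn P = (univ.filter P).card := by
  unfold cn
  congr 1
  ext w
  simp only [mem_filter]

section

variable {V : Type} [Fintype V] (σ : V → V) (hσ : ∀ v, σ (σ v) = v)

/-- the atom of `v` -/
def pi (v : V) : Quotient (st σ hσ) := Quotient.mk (st σ hσ) v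

omit [Fintype V] in
theorem pi_eq (u v : V) : pi σ hσ u = pi σ hσ v ↔ (u = v ∨ u = σ v) := by
  unfold pi
  exact Quotient.eq (r := st σ hσ)

omit [Fintype V] in
theorem pi_surj (q : Quotient (st σ hσ)) : ∃ v, pi σ hσ v = q := by
  obtain ⟨v, hv⟩ := Quotient.exists_rep q
  exact ⟨v, hv⟩

noncomputable instance : Fintype (Quotient (st σ hσ)) := Fintype.ofFinite _

theorem count (P : Quotient (st σ hσ) → Prop) :
    2 * cn P = cn (fun w => P (pi σ hσ w)) + cn (fun w => P (pi σ hσ w) ∧ σ w = w) := by
  rw [cn_eq P, cn_eq (fun w => P (pi σ hσ w)), cn_eq (fun w => P (pi σ hσ w) ∧ σ w = w)]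
  have h1 := Finset.card_eq_sum_card_fiberwise (f := pi σ hσ)
    (s := univ.filter (fun w => P (pi σ hσ w))) (t := univ.filter P)
    (by intro w hw; simpa using hw)
  have h2 := Finset.card_eq_sum_card_fiberwise (f := pi σ hσ)
    (s := univ.filter (fun w => P (pi σ hσ w) ∧ σ w = w)) (t := univ.filter P)
    (by intro w hw
        rw [mem_coe, mem_filter] at hw ⊢
        exact ⟨mem_univ _, hw.2.1⟩)
  rw [h1, h2, ← Finset.sum_add_distrib]
  have h3 : ∀ q ∈ univ.filter P,
      ((univ.filter (fun w => P (pi σ hσ w))).filter (fun w => pi σ hσ w = q)).card +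
      ((univ.filter (fun w => P (pi σ hσ w) ∧ σ w = w)).filter
        (fun w => pi σ hσ w = q)).card = 2 := by
    intro q hq
    rw [mem_filter] at hq
    obtain ⟨v, rfl⟩ := pi_surj σ hσ q
    by_cases hv : σ v = v
    · have e1 : (univ.filter (fun w => P (pi σ hσ w))).filter
          (fun w => pi σ hσ w = pi σ hσ v) = {v} := by
        ext w
        simp only [mem_filter, mem_univ, true_and, mem_singleton, pi_eq, hv, or_self]
        constructor
        · exact fun h => h.2
        · rintro rfl; exact ⟨hq.2, rfl⟩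
      have e2 : (univ.filter (fun w => P (pi σ hσ w) ∧ σ w = w)).filter
          (fun w => pi σ hσ w = pi σ hσ v) = {v} := by
        ext w
        simp only [mem_filter, mem_univ, true_and, mem_singleton, pi_eq, hv, or_self]
        constructor
        · exact fun h => h.2
        · rintro rfl; exact ⟨⟨hq.2, hv⟩, rfl⟩
      rw [e1, e2, card_singleton]
    · have e1 : (univ.filter (fun w => P (pi σ hσ w))).filter
          (fun w => pi σ hσ w = pi σ hσ v) = {v, σ v} := by
        ext w
        simp only [mem_filter, mem_univ, true_and, mem_insert, mem_singleton, pi_eq]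
        constructor
        · exact fun h => h.2
        · intro h
          refine ⟨?_, h⟩
          have : pi σ hσ w = pi σ hσ v := (pi_eq σ hσ w v).2 h
          rw [this]; exact hq.2
      have e2 : (univ.filter (fun w => P (pi σ hσ w) ∧ σ w = w)).filter
          (fun w => pi σ hσ w = pi σ hσ v) = ∅ := by
        ext w
        simp only [mem_filter, mem_univ, true_and, pi_eq, notMem_empty, iff_false, not_and]
        rintro ⟨_, h1⟩ (h2 | h2)
        · exact hv (h2 ▸ h1)
        · rw [h2, hσ] at h1
          exact hv h1.symm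
      rw [e1, e2, card_empty, card_pair (Ne.symm hv)]
  rw [Finset.sum_congr rfl h3, sum_const, smul_eq_mul, mul_comm]

end

theorem t4b : ST4a → ST4b := by
  intro h4a V ι _ G pt lo σ h hlo hσ hpt hdeg hsz
  -- data on the atoms
  have hptq : ∀ u v : V, (st σ hσ).r u v → pt u = pt v := by
    rintro u v (h | h)
    · rw [h]
    · rw [h, hpt]
  have hloq : ∀ u v : V, (st σ hσ).r u v → lo u = lo v := fun u v h => hlo _ _ (hptq u v h)
  let pt' : Quotient (st σ hσ) → ι := Quotient.lift pt hptq
  let lo' : Quotient (st σ hσ) → ℕ := Quotient.lift lo hloq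
  have ept : ∀ v, pt' (pi σ hσ v) = pt v := fun v => rfl
  have elo : ∀ v, lo' (pi σ hσ v) = lo v := fun v => rfl
  let G' : SimpleGraph (Quotient (st σ hσ)) :=
    { Adj := fun a b => a ≠ b ∧ ∃ u v, pi σ hσ u = a ∧ pi σ hσ v = b ∧ G.Adj u v
      symm := ⟨by
        rintro a b ⟨hab, u, v, hu, hv, huv⟩
        exact ⟨hab.symm, v, u, hv, hu, huv.symm⟩⟩
      loopless := ⟨fun a ha => ha.1 rfl⟩ }
  have hcard : ∀ v, 2 * cn (fun q => pt' q = pt v) =
      cn (fun w => pt w = pt v) + cn (fun w => pt w = pt v ∧ σ w = w) := by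
    intro v
    exact count σ hσ (fun q => pt' q = pt v)
  obtain ⟨g, hg1, hg2⟩ := h4a (Quotient (st σ hσ)) ι G' pt' lo' (2 * h)
    (by
      intro a b hab
      obtain ⟨u, rfl⟩ := pi_surj σ hσ a
      obtain ⟨v, rfl⟩ := pi_surj σ hσ b
      exact hlo u v hab)
    (by
      intro a
      obtain ⟨v, rfl⟩ := pi_surj σ hσ a
      have hsub : (univ.filter (fun b => G'.Adj (pi σ hσ v) b ∧ pt' b ≠ pt' (pi σ hσ v))) ⊆
          ((univ.filter (fun w => G.Adj v w ∧ pt w ≠ pt v)) ∪
            (univ.filter (fun w => G.Adj (σ v) w ∧ pt w ≠ pt (σ v)))).image (pi σ hσ) := by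
        intro b hb
        simp only [mem_filter, mem_univ, true_and] at hb
        obtain ⟨⟨_, u, w, hu, hw, huw⟩, hne⟩ := hb
        rw [mem_image]
        refine ⟨w, ?_, hw⟩
        have hne' : pt w ≠ pt v := by
          intro e
          apply hne
          rw [← hw, ept, ept, e]
        rw [mem_union, mem_filter, mem_filter]
        rcases (pi_eq σ hσ u v).1 hu with rfl | rfl
        · exact Or.inl ⟨mem_univ _, huw, hne'⟩
        · exact Or.inr ⟨mem_univ _, huw, by rw [hpt]; exact hne'⟩
      have h1 := Finset.card_le_card hsub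
      have h2 := (Finset.card_image_le (f := pi σ hσ)
        (s := (univ.filter (fun w => G.Adj v w ∧ pt w ≠ pt v)) ∪
            (univ.filter (fun w => G.Adj (σ v) w ∧ pt w ≠ pt (σ v)))))
      have h3 := Finset.card_union_le (univ.filter (fun w => G.Adj v w ∧ pt w ≠ pt v))
            (univ.filter (fun w => G.Adj (σ v) w ∧ pt w ≠ pt (σ v)))
      have h4 := hdeg v
      have h5 := hdeg (σ v)
      rw [cn_eq] at h4 h5 ⊢
      omega)
    (by
      intro a
      obtain ⟨v, rfl⟩ := pi_surj σ hσ a
      have h1 := hcard v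
      have h2 := hsz v
      have h3 : cn (fun w => pt' w = pt' (pi σ hσ v)) = cn (fun q => pt' q = pt v) := rfl
      omega)
  refine ⟨fun v => g (pi σ hσ v), ?_, ?_, ?_, ?_, ?_, ?_⟩
  · intro v
    have : pi σ hσ (σ v) = pi σ hσ v := (pi_eq σ hσ (σ v) v).2 (Or.inr rfl)
    show g (pi σ hσ (σ v)) = g (pi σ hσ v)
    rw [this]
  · intro v
    exact (hg1 (pi σ hσ v)).1
  · intro v
    have h1 := (hg1 (pi σ hσ v)).2
    have h2 := hcard v
    have h3 : cn (fun w => pt' w = pt' (pi σ hσ v)) = cn (fun q => pt' q = pt v) := rfl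
    rw [elo] at h1
    show 2 * g (pi σ hσ v) < _
    omega
  · intro u v huv hf
    by_contra hne
    have hne' : pi σ hσ u ≠ pi σ hσ v := fun e => hne ((pi_eq σ hσ u v).1 e)
    exact hg2 _ _ hne' (Or.inl (by rw [ept, ept, huv])) hf
  · intro u v huv hne hf
    have hne' : pi σ hσ u ≠ pi σ hσ v := fun e => hne (by rw [← ept, ← ept, e])
    exact hg2 _ _ hne' (Or.inr ⟨hne', u, v, rfl, rfl, huv⟩) hf
  · intro v c hc1 hc2
    have hmaps : (univ.filter (fun q => pt' q = pt v)).image g ⊆
        Finset.Ico (lo v) (lo v + cn (fun q => pt' q = pt v)) := by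
      intro x hx
      rw [mem_image] at hx
      obtain ⟨q, hq, rfl⟩ := hx
      obtain ⟨w, rfl⟩ := pi_surj σ hσ q
      rw [mem_filter] at hq
      have e : pt w = pt v := hq.2
      have h1 := hg1 (pi σ hσ w)
      have h3 : cn (fun q => pt' q = pt' (pi σ hσ w)) = cn (fun q => pt' q = pt v) := by
        rw [ept, e]
      rw [elo, h3, hlo w v e] at h1
      rw [mem_Ico]
      exact h1
    have hinj : Set.InjOn g ((univ.filter (fun q => pt' q = pt v) :
        Finset (Quotient (st σ hσ))) : Set (Quotient (st σ hσ))) := by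
      intro a ha b hb hab
      by_contra hne
      have ha' : pt' a = pt v := by simpa using ha
      have hb' : pt' b = pt v := by simpa using hb
      exact hg2 a b hne (Or.inl (by rw [ha', hb'])) hab
    have hcards : (Finset.Ico (lo v) (lo v + cn (fun q => pt' q = pt v))).card ≤
        ((univ.filter (fun q => pt' q = pt v)).image g).card := by
      rw [Finset.card_image_of_injOn hinj, Nat.card_Ico]
      unfold cn
      omega
    have heq := Finset.eq_of_subset_of_card_le hmaps hcards
    have hcm : c ∈ Finset.Ico (lo v) (lo v + cn (fun q => pt' q = pt v)) := by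
      have := hcard v
      rw [mem_Ico]
      omega
    rw [← heq, mem_image] at hcm
    obtain ⟨q, hq, hqc⟩ := hcm
    obtain ⟨w, rfl⟩ := pi_surj σ hσ q
    rw [mem_filter] at hq
    exact ⟨w, hq.2, hqc⟩

end Pool.Agent.T9h43.LD
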